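import Mathlib

namespace Pool.Agent.RS.H14

open MvPolynomial

universe u v

section

variable {k : Type u} {B : Type v} [Field k] [CommRing B] [Algebra k B]

/-- Sums of products of elements of positive degree, of total degree `n`. -/
def Dec (A : ℕ → Submodule k B) (n : ℕ) : Submodule k B :=
  Submodule.span k {x | ∃ i j a b, 0 < i ∧ 0 < j ∧ i + j = n ∧ a ∈ A i ∧ b ∈ A j ∧ x = a * b}

/-- An algebra grading by the natural numbers with degree zero part the field `k`. -/
structure Grad (A : ℕ → Submodule k B) : Prop where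
  one : (1 : B) ∈ A 0
  mul : ∀ i j a b, a ∈ A i → b ∈ A j → a * b ∈ A (i + j)
  top : ∀ b, b ∈ ⨆ i, A i
  ind : ∀ (s : Finset ℕ) (f : ℕ → B), (∀ i ∈ s, f i ∈ A i) → ∑ i ∈ s, f i = 0 →
    ∀ i ∈ s, f i = 0
  zero : ∀ b ∈ A 0, ∃ c, algebraMap k B c = b

lemma exists_compl (U V : Submodule k B) :
    ∃ C : Submodule k B, C ≤ V ∧ C ⊓ U = ⊥ ∧ V ≤ C ⊔ U := by
  obtain ⟨C', hC'⟩ := Submodule.exists_isCompl (U.comap V.subtype)
  refine ⟨C'.map V.subtype, Submodule.map_subtype_le V C', ?_, ?_⟩
  · rw [eq_bot_iff]
    rintro x ⟨hx, hxU⟩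
    obtain ⟨y, hy, rfl⟩ := hx
    have : y ∈ U.comap V.subtype ⊓ C' := ⟨hxU, hy⟩
    rw [hC'.inf_eq_bot] at this
    have h0 : y = 0 := by simpa using this
    simp [h0]
  · intro x hx
    have : (⟨x, hx⟩ : V) ∈ U.comap V.subtype ⊔ C' := by
      rw [hC'.sup_eq_top]; trivial
    obtain ⟨a, ha, b, hb, hab⟩ := Submodule.mem_sup.1 this
    refine Submodule.mem_sup.2 ⟨b, ⟨b, hb, rfl⟩, a, ha, ?_⟩
    have := congrArg Subtype.val hab
    simp only [Submodule.coe_add] at this
    rw [add_comm]; exact this

lemma pderiv_ne_zero [CharZero k] {ι : Type*} {P : MvPolynomial ι k} {x : ι}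
    (hx : x ∈ P.vars) : pderiv x P ≠ 0 := by
  classical
  obtain ⟨d, hd, hxd⟩ := (mem_vars_iff_mem_support x).1 hx
  intro h0
  have h1 : coeff (d - (Finsupp.single x 1 : ι →₀ ℕ)) (pderiv x P) = 0 := by rw [h0]; simp
  rw [coeff_pderiv] at h1
  have h2 : (d - (Finsupp.single x 1 : ι →₀ ℕ)) + Finsupp.single x 1 = d := by
    apply tsub_add_cancel_of_le
    rw [Finsupp.single_le_iff]
    exact Nat.one_le_iff_ne_zero.2 (Finsupp.mem_support_iff.1 hxd)
  rw [h2] at h1
  rcases mul_eq_zero.1 h1 with h | h
  · exact (mem_support_iff.1 hd) h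
  · exact Nat.cast_add_one_ne_zero _ h

variable {A : ℕ → Submodule k B} {ι : Type*} {E : ι → B} {w : ι → ℕ}

lemma prod_mem (h : Grad A) (hE : ∀ i, E i ∈ A (w i)) (d : ι →₀ ℕ) :
    (d.prod fun i e => E i ^ e) ∈ A (Finsupp.weight w d) := by
  classical
  induction d using Finsupp.induction_linear with
  | zero => simpa using h.one
  | add d d' hd hd' =>
    rw [Finsupp.prod_add_index' (by simp) (by intros; rw [pow_add]), map_add]
    exact h.mul _ _ _ _ hd hd'
  | single i e =>
    rw [Finsupp.prod_single_index (by simp), Finsupp.weight_single]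
    induction e with
    | zero => simpa using h.one
    | succ e ih =>
      rw [pow_succ, add_smul, one_smul]
      exact h.mul _ _ _ _ ih (hE i)

lemma aeval_mem (h : Grad A) (hE : ∀ i, E i ∈ A (w i)) {P : MvPolynomial ι k} {n : ℕ}
    (hP : IsWeightedHomogeneous w P n) : aeval E P ∈ A n := by
  induction hP using IsWeightedHomogeneous.induction_on with
  | zero => simp
  | add p q hp hq ihp ihq => rw [map_add]; exact (A n).add_mem ihp ihq
  | monomial d r hr =>
    rw [aeval_monomial, ← Algebra.smul_def, ← hr]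
    exact (A _).smul_mem _ (prod_mem h hE d)

lemma sum_comp (Q : MvPolynomial ι k) (s : Finset ℕ)
    (hs : ∀ d ∈ Q.support, Finsupp.weight w d ∈ s) :
    ∑ n ∈ s, weightedHomogeneousComponent w n Q = Q := by
  classical
  ext d
  rw [coeff_sum]
  simp only [coeff_weightedHomogeneousComponent]
  rw [Finset.sum_ite_eq s]
  split_ifs with h
  · rfl
  · by_contra hne
    exact h (hs d (mem_support_iff.2 (Ne.symm hne)))

lemma comp_eval (h : Grad A) (hE : ∀ i, E i ∈ A (w i)) {m : ℕ} {b : B} (hb : b ∈ A m)
    (Q : MvPolynomial ι k) (hQ : aeval E Q = b) :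
    aeval E (weightedHomogeneousComponent w m Q) = b := by
  classical
  set s : Finset ℕ := insert m (Q.support.image (Finsupp.weight w)) with hs
  have h1 : ∑ n ∈ s, (aeval E (weightedHomogeneousComponent w n Q) - if n = m then b else 0)
      = 0 := by
    rw [Finset.sum_sub_distrib, ← map_sum, sum_comp Q s, hQ]
    · rw [Finset.sum_ite_eq' s, if_pos (by simp [hs]), sub_self]
    · intro d hd
      simp only [hs, Finset.mem_insert, Finset.mem_image]
      exact Or.inr ⟨d, hd, rfl⟩
  have h2 := h.ind s _ (fun n _ => ?_) h1 m (by simp [hs])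
  · simpa [sub_eq_zero] using h2
  · refine (A n).sub_mem (aeval_mem h hE (weightedHomogeneousComponent_isWeightedHomogeneous _ _)) ?_
    split_ifs with hn
    · rw [hn]; exact hb
    · exact (A n).zero_mem

lemma comp_eval_zero (h : Grad A) (hE : ∀ i, E i ∈ A (w i)) (m : ℕ)
    (Q : MvPolynomial ι k) (hQ : aeval E Q = 0) :
    aeval E (weightedHomogeneousComponent w m Q) = 0 :=
  comp_eval h hE (A m).zero_mem Q hQ

lemma lead_mem (h : Grad A) (hE : ∀ i, E i ∈ A (w i)) (hw : ∀ i, 0 < w i) (x : ι)
    {P : MvPolynomial ι k} {n : ℕ} (hn : 0 < n) (hP : IsWeightedHomogeneous w P n) :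
    aeval E P - coeff (Finsupp.single x 1) P • E x ∈
      Dec A n ⊔ Submodule.span k (E '' {y | y ≠ x ∧ w y = n}) := by
  classical
  induction hP using IsWeightedHomogeneous.induction_on with
  | zero => simp
  | add p q hp hq ihp ihq =>
    have := Submodule.add_mem _ ihp ihq
    have e : aeval E (p + q) - coeff (Finsupp.single x 1) (p + q) • E x =
      (aeval E p - coeff (Finsupp.single x 1) p • E x) +
      (aeval E q - coeff (Finsupp.single x 1) q • E x) := by
      rw [map_add, coeff_add, add_smul]; ring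
    rw [e]; exact this
  | monomial d r hr =>
    rw [aeval_monomial, ← Algebra.smul_def, coeff_monomial]
    by_cases hd : ∃ y, d = Finsupp.single y 1
    · obtain ⟨y, rfl⟩ := hd
      rw [Finsupp.prod_single_index (by simp), pow_one]
      by_cases hyx : y = x
      · subst hyx
        simp
      · rw [if_neg (fun e => hyx ((Finsupp.single_left_inj one_ne_zero).1 e)), zero_smul, sub_zero]
        refine Submodule.mem_sup_right (Submodule.smul_mem _ _ (Submodule.subset_span ⟨y, ⟨hyx, ?_⟩, rfl⟩))
        rw [Finsupp.weight_single] at hr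
        simpa using hr
    · rw [if_neg (fun e => hd ⟨x, e⟩), zero_smul, sub_zero]
      refine Submodule.mem_sup_left (Submodule.smul_mem _ _ (Submodule.subset_span ?_))
      have hd0 : d ≠ 0 := by
        rintro rfl
        simp at hr
        omega
      obtain ⟨i, hi⟩ := Finsupp.support_nonempty_iff.2 hd0
      have h2 : d = Finsupp.single i 1 + (d - Finsupp.single i 1) := by
        rw [add_comm]
        symm
        apply tsub_add_cancel_of_le
        rw [Finsupp.single_le_iff]
        exact Nat.one_le_iff_ne_zero.2 (Finsupp.mem_support_iff.1 hi)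
      set d' := d - Finsupp.single i 1 with hd'
      have hd'0 : d' ≠ 0 := by
        intro h0
        apply hd
        exact ⟨i, by rw [h2, h0, add_zero]⟩
      obtain ⟨j, hj⟩ := Finsupp.support_nonempty_iff.2 hd'0
      have hpos : 0 < Finsupp.weight w d' :=
        lt_of_lt_of_le (hw j) (Finsupp.le_weight_of_ne_zero' w (Finsupp.mem_support_iff.1 hj))
      refine ⟨w i, Finsupp.weight w d', E i, d'.prod fun i e => E i ^ e, hw i, hpos, ?_, hE i,
        prod_mem h hE d', ?_⟩
      · rw [← hr]
        conv_rhs => rw [h2]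
        rw [map_add, Finsupp.weight_single, one_smul]
      · conv_lhs => rw [h2]
        rw [Finsupp.prod_add_index' (by simp) (by intros; rw [pow_add]),
          Finsupp.prod_single_index (by simp), pow_one]


lemma mkDer_homog {D : ι → MvPolynomial ι k} (hw : ∀ i, 0 < w i)
    (hD : ∀ i, IsWeightedHomogeneous w (D i) (w i - 1)) {P : MvPolynomial ι k} {n : ℕ}
    (hP : IsWeightedHomogeneous w P n) :
    IsWeightedHomogeneous w (mkDerivation k D P) (n - 1) := by
  classical
  induction hP using IsWeightedHomogeneous.induction_on with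
  | zero => rw [map_zero]; exact isWeightedHomogeneous_zero _ _ _
  | add p q hp hq ihp ihq => rw [map_add]; exact ihp.add ihq
  | monomial d r hr =>
    rw [mkDerivation_monomial, ← C_mul']
    refine IsWeightedHomogeneous.C_mul ?_ _
    unfold Finsupp.sum
    refine IsWeightedHomogeneous.sum _ _ _ ?_
    intro i hi
    show IsWeightedHomogeneous w (monomial (d - Finsupp.single i 1) ((d i : ℕ) : k) * D i) (n - 1)
    have hi' : d i ≠ 0 := Finsupp.mem_support_iff.1 hi
    have h1 : Finsupp.weight w (d - Finsupp.single i 1) + w i = n := by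
      rw [← hr]; exact Finsupp.weight_sub_single_add hi'
    have h2 : n - 1 = Finsupp.weight w (d - Finsupp.single i 1) + (w i - 1) := by
      have := hw i
      omega
    rw [h2]
    exact (isWeightedHomogeneous_monomial w _ _ rfl).mul (hD i)

lemma mkDer_eval {D : ι → MvPolynomial ι k} {d : Derivation k B B}
    (hD : ∀ i, aeval E (D i) = d (E i)) (P : MvPolynomial ι k) :
    aeval E (mkDerivation k D P) = d (aeval E P) := by
  classical
  induction P using MvPolynomial.induction_on with
  | C a =>
    rw [← algebraMap_eq, Derivation.map_algebraMap, map_zero, AlgHom.commutes,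
      Derivation.map_algebraMap]
  | add p q hp hq => simp only [map_add, hp, hq]
  | mul_X p i hp =>
    simp only [Derivation.leibniz, map_add, smul_eq_mul, map_mul, hp, mkDerivation_X, hD, aeval_X]

lemma not_mem_vars {P : MvPolynomial ι k} {n : ℕ} {x : ι}
    (hP : IsWeightedHomogeneous w P n) (hx : n < w x) : x ∉ P.vars := by
  intro h
  obtain ⟨d, hd, hxd⟩ := (mem_vars_iff_mem_support x).1 h
  have h1 := hP (mem_support_iff.1 hd)
  have h2 := Finsupp.le_weight_of_ne_zero' w (Finsupp.mem_support_iff.1 hxd)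
  omega

/-- homogeneous relations vanish -/
lemma homog_zero [CharZero k] [Nontrivial B] (h : Grad A) (hE : ∀ i, E i ∈ A (w i))
    (hw : ∀ i, 0 < w i)
    (hgen : Algebra.adjoin k (Set.range E) = ⊤)
    (hnd : ∀ x, E x ∉ Dec A (w x) ⊔ Submodule.span k (E '' {y | y ≠ x ∧ w y = w x}))
    (Ds : Set (Derivation k B B)) (hdeg : ∀ d ∈ Ds, ∀ n, ∀ b ∈ A (n + 1), d b ∈ A n)
    (hker : ∀ n, ∀ b ∈ A (n + 1), (∀ d ∈ Ds, d b = 0) → b = 0) :
    ∀ n, ∀ P : MvPolynomial ι k, IsWeightedHomogeneous w P n → aeval E P = 0 → P = 0 := by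
  classical
  have hsurj : ∀ b : B, ∃ Q : MvPolynomial ι k, aeval E Q = b := by
    intro b
    have : b ∈ Algebra.adjoin k (Set.range E) := by rw [hgen]; trivial
    rw [Algebra.adjoin_range_eq_range_aeval] at this
    exact this
  -- lifts of the derivations
  have hlift : ∀ d ∈ Ds, ∃ D : ι → MvPolynomial ι k,
      (∀ i, IsWeightedHomogeneous w (D i) (w i - 1)) ∧ (∀ i, aeval E (D i) = d (E i)) := by
    intro d hd
    have : ∀ i, ∃ Q : MvPolynomial ι k, IsWeightedHomogeneous w Q (w i - 1) ∧
        aeval E Q = d (E i) := by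
      intro i
      obtain ⟨Q, hQ⟩ := hsurj (d (E i))
      refine ⟨weightedHomogeneousComponent w (w i - 1) Q,
        weightedHomogeneousComponent_isWeightedHomogeneous _ _, comp_eval h hE ?_ Q hQ⟩
      apply hdeg d hd
      rw [Nat.sub_add_cancel (hw i)]
      exact hE i
    choose D hD1 hD2 using this
    exact ⟨D, hD1, hD2⟩
  intro n
  induction n using Nat.strong_induction_on with
  | _ n ih =>
  intro P hP hPE
  by_contra hP0
  have hvars : P.vars.Nonempty := by
    rw [Finset.nonempty_iff_ne_empty]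
    intro he
    rw [vars_eq_empty_iff_eq_C] at he
    rw [he, ← algebraMap_eq, AlgHom.commutes] at hPE
    have := (map_eq_zero_iff (algebraMap k B) (algebraMap k B).injective).1 hPE
    apply hP0
    rw [he, this, C_0]
  obtain ⟨x, hx, hmax⟩ := Finset.exists_max_image P.vars w hvars
  obtain ⟨d0, hd0, hxd0⟩ := (mem_vars_iff_mem_support x).1 hx
  have hwn := hP (mem_support_iff.1 hd0)
  have hxn : w x ≤ n := by
    rw [← hwn]
    exact Finsupp.le_weight_of_ne_zero' w (Finsupp.mem_support_iff.1 hxd0)
  have hwx := hw x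
  rcases lt_or_eq_of_le hxn with hlt | heq
  · -- use derivations
    obtain ⟨m, hm⟩ : ∃ m, n = w x + (m + 1) := ⟨n - w x - 1, by omega⟩
    have hQ : IsWeightedHomogeneous w (pderiv x P) (m + 1) := by
      apply hP.pderiv
      omega
    have h1 : aeval E (pderiv x P) = 0 := by
      apply hker m _ (aeval_mem h hE hQ)
      intro d hd
      obtain ⟨D, hD1, hD2⟩ := hlift d hd
      have h2 : mkDerivation k D P = 0 := by
        apply ih (n - 1) (by omega) _ (mkDer_homog hw hD1 hP)
        rw [mkDer_eval hD2, hPE, map_zero]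
      have h3 : ⁅mkDerivation k D, pderiv x⁆ P = 0 := by
        apply derivation_eq_zero_of_forall_mem_vars
        intro i hi
        rw [Derivation.commutator_apply, mkDerivation_X]
        have h4 : pderiv x (D i) = 0 := by
          apply pderiv_eq_zero_of_notMem_vars
          apply not_mem_vars (hD1 i)
          have := hmax i hi
          have := hw i
          omega
        rw [h4, sub_zero, pderiv_X]
        by_cases hix : i = x
        · subst hix; simp
        · rw [Pi.single_eq_of_ne hix]; simp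
      rw [Derivation.commutator_apply, h2, map_zero, sub_zero] at h3
      rw [← mkDer_eval hD2, h3, map_zero]
    exact pderiv_ne_zero hx (ih (m + 1) (by omega) _ hQ h1)
  · -- the linear part
    have h1 := lead_mem h hE hw x (by omega : 0 < n) hP
    rw [hPE, zero_sub] at h1
    have h2 : d0 = Finsupp.single x 1 := by
      have h3 : (d0 - Finsupp.single x 1) + Finsupp.single x 1 = d0 := by
        apply tsub_add_cancel_of_le
        rw [Finsupp.single_le_iff]
        exact Nat.one_le_iff_ne_zero.2 (Finsupp.mem_support_iff.1 hxd0)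
      have h4 : Finsupp.weight w (d0 - Finsupp.single x 1) = 0 := by
        have := Finsupp.weight_sub_single_add (w := w) (Finsupp.mem_support_iff.1 hxd0)
        omega
      have h5 : d0 - Finsupp.single x 1 = 0 := by
        by_contra hne
        obtain ⟨j, hj⟩ := Finsupp.support_nonempty_iff.2 hne
        have := lt_of_lt_of_le (hw j) (Finsupp.le_weight_of_ne_zero' w (Finsupp.mem_support_iff.1 hj))
        omega
      rw [← h3, h5, zero_add]
    have hc : coeff (Finsupp.single x 1) P ≠ 0 := by
      rw [← h2]; exact mem_support_iff.1 hd0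
    apply hnd x
    rw [← heq] at h1
    have h6 := Submodule.smul_mem _ (-(coeff (Finsupp.single x 1) P)⁻¹) h1
    rw [smul_neg, neg_smul, neg_neg, smul_smul, inv_mul_cancel₀ hc, one_smul] at h6
    exact h6


lemma algInd_of_homog [CharZero k] [Nontrivial B] (h : Grad A) (hE : ∀ i, E i ∈ A (w i))
    (hz : ∀ n, ∀ P : MvPolynomial ι k, IsWeightedHomogeneous w P n → aeval E P = 0 → P = 0) :
    AlgebraicIndependent k E := by
  classical
  rw [algebraicIndependent_iff]
  intro P hP
  rw [← sum_comp (w := w) P (P.support.image (Finsupp.weight w))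
    (fun d hd => Finset.mem_image.2 ⟨d, hd, rfl⟩)]
  apply Finset.sum_eq_zero
  intro n _
  exact hz n _ (weightedHomogeneousComponent_isWeightedHomogeneous _ _)
    (comp_eval_zero h hE n P hP)

end

section

variable {k : Type u} {B : Type v} [Field k] [CommRing B] [Algebra k B]
  {A : ℕ → Submodule k B}

lemma dec_le (h : Grad A) (n : ℕ) : Dec A n ≤ A n := by
  unfold Dec
  rw [Submodule.span_le]
  rintro x ⟨i, j, a, b, _, _, hij, ha, hb, rfl⟩
  rw [← hij]
  exact h.mul _ _ _ _ ha hb

/-- Erman, Sam, Snowden: a graded algebra over a field of characteristic zero with degree zero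
part the field and enough derivations of degree -1 is a polynomial ring. -/
theorem ess [CharZero k] [Nontrivial B] (h : Grad A)
    (Ds : Set (Derivation k B B)) (hdeg : ∀ d ∈ Ds, ∀ n, ∀ b ∈ A (n + 1), d b ∈ A n)
    (hker : ∀ n, ∀ b ∈ A (n + 1), (∀ d ∈ Ds, d b = 0) → b = 0) :
    ∃ (ι : Type v) (E : ι → B), AlgebraicIndependent k E ∧
      Algebra.adjoin k (Set.range E) = ⊤ := by
  classical
  have hC : ∀ n, ∃ C : Submodule k B, C ≤ A n ∧ C ⊓ Dec A n = ⊥ ∧ A n ≤ C ⊔ Dec A n :=
    fun n => exists_compl _ _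
  choose C hC1 hC2 hC3 using hC
  let bas := fun n => Module.Basis.ofVectorSpace k (C n)
  let ι : Type v := Σ n : ℕ, Module.Basis.ofVectorSpaceIndex k (C (n + 1))
  let E : ι → B := fun x => ((bas (x.1 + 1)) x.2 : B)
  let w : ι → ℕ := fun x => x.1 + 1
  have hw : ∀ i, 0 < w i := fun i => Nat.succ_pos _
  have hE : ∀ i, E i ∈ A (w i) := fun i => hC1 _ ((bas (i.1 + 1)) i.2).2
  have hspan : ∀ n, C (n + 1) ≤ Submodule.span k (Set.range E) := by
    intro n x hx
    have h1 : (⟨x, hx⟩ : C (n + 1)) ∈ Submodule.span k (Set.range (bas (n + 1))) := by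
      rw [(bas (n + 1)).span_eq]; trivial
    have h2 := Submodule.mem_map_of_mem (f := (C (n + 1)).subtype) h1
    rw [Submodule.map_span] at h2
    refine Submodule.span_mono ?_ h2
    rintro _ ⟨_, ⟨i, rfl⟩, rfl⟩
    exact ⟨⟨n, i⟩, rfl⟩
  have hgen' : ∀ n, ∀ b ∈ A n, b ∈ Algebra.adjoin k (Set.range E) := by
    intro n
    induction n using Nat.strong_induction_on with
    | _ n ih =>
    intro b hb
    rcases Nat.eq_zero_or_pos n with hn | hn
    · subst hn
      obtain ⟨c, rfl⟩ := h.zero b hb
      exact Subalgebra.algebraMap_mem _ c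
    · obtain ⟨m, rfl⟩ : ∃ m, n = m + 1 := ⟨n - 1, by omega⟩
      obtain ⟨c, hc, t, ht, rfl⟩ := Submodule.mem_sup.1 (hC3 _ hb)
      refine Subalgebra.add_mem _ ?_ ?_
      · have h1 := hspan m hc
        have h2 : Submodule.span k (Set.range E) ≤
            Subalgebra.toSubmodule (Algebra.adjoin k (Set.range E)) := by
          rw [Submodule.span_le]
          exact Algebra.subset_adjoin
        exact h2 h1
      · have h2 : Dec A (m + 1) ≤ Subalgebra.toSubmodule (Algebra.adjoin k (Set.range E)) := by
          unfold Dec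
          rw [Submodule.span_le]
          rintro x ⟨i, j, a, b, hi, hj, hij, ha, hb, rfl⟩
          exact Subalgebra.mul_mem _ (ih i (by omega) a ha) (ih j (by omega) b hb)
        exact h2 ht
  have hgen : Algebra.adjoin k (Set.range E) = ⊤ := by
    rw [eq_top_iff]
    intro b _
    have h1 : (⨆ i, A i) ≤ Subalgebra.toSubmodule (Algebra.adjoin k (Set.range E)) :=
      iSup_le fun i b hb => hgen' i b hb
    exact h1 (h.top b)
  have hnd : ∀ x, E x ∉ Dec A (w x) ⊔ Submodule.span k (E '' {y | y ≠ x ∧ w y = w x}) := by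
    rintro ⟨n, i⟩ hx
    obtain ⟨t, ht, s, hs, hts⟩ := Submodule.mem_sup.1 hx
    have himg : E '' {y | y ≠ (⟨n, i⟩ : ι) ∧ w y = w ⟨n, i⟩} ⊆
        (C (n + 1)).subtype '' ((bas (n + 1)) '' {i}ᶜ) := by
      rintro _ ⟨⟨m, j⟩, ⟨hne, hwm⟩, rfl⟩
      have hmn : m = n := by
        have : m + 1 = n + 1 := hwm
        omega
      subst hmn
      refine ⟨bas (m + 1) j, ⟨j, ?_, rfl⟩, rfl⟩
      intro hj
      apply hne
      rw [Set.mem_singleton_iff] at hj
      rw [hj]
    have hs' := Submodule.span_mono himg hs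
    rw [← Submodule.map_span] at hs'
    obtain ⟨s', hs1, hs2⟩ := hs'
    have ht0 : t = 0 := by
      have h1 : t ∈ C (n + 1) := by
        have : t = E ⟨n, i⟩ - s := by rw [← hts]; ring
        rw [this, ← hs2]
        exact Submodule.sub_mem _ ((bas (n + 1)) i).2 s'.2
      have h2 : t ∈ C (n + 1) ⊓ Dec A (n + 1) := ⟨h1, ht⟩
      rw [hC2] at h2
      simpa using h2
    have h3 : bas (n + 1) i ∈ Submodule.span k ((bas (n + 1)) '' {i}ᶜ) := by
      have : s' = bas (n + 1) i := by
        apply Subtype.ext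
        have h4 : (s' : B) = s := hs2
        rw [h4, ← zero_add s, ← ht0, hts]
      rw [← this]; exact hs1
    have h5 := (bas (n + 1)).linearIndependent.notMem_span_image (s := {i}ᶜ) (x := i) (by simp)
    exact h5 h3
  exact ⟨ι, E, algInd_of_homog h hE (homog_zero h hE hw hgen hnd Ds hdeg hker), hgen⟩

end

end Pool.Agent.RS.H14
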