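import Pool.Agent.RS.StmtsT
import Pool.Agent.Helper14_RS.ESS

set_option autoImplicit false

namespace Pool.Agent.RS.H14

/-- ROW ESS, without hypotheses. -/
theorem essRow : Pool.Agent.RS.EssStmt := by
  classical
  intro k B Δ _ _ _ _ _ gr d hgr hdeg hker
  obtain ⟨h0, hmul, htop, hind⟩ := hgr
  have hG : Grad gr := by
    refine ⟨?_, ?_, ?_, ?_, ?_⟩
    · exact (h0 1).2 ⟨1, by simp⟩
    · intro i j a b ha hb
      exact hmul i j a ha b hb
    · intro b
      obtain ⟨N, c, hc, rfl⟩ := htop b
      exact Submodule.sum_mem _ (fun n _ => (le_iSup gr n) (hc n))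
    · intro s f hf hs i hi
      set N := s.sup id + 1 with hN
      have hlt : ∀ j ∈ s, j < N := fun j hj => Nat.lt_succ_of_le (Finset.le_sup (f := id) hj)
      have h1 := hind N (fun n => if n ∈ s then f n else 0) (fun n => by
        split_ifs with hn
        · exact hf n hn
        · exact Submodule.zero_mem _) (by
          rw [← Finset.sum_filter]
          refine Eq.trans (Finset.sum_congr ?_ fun _ _ => rfl) hs
          ext n
          simp only [Finset.mem_filter, Finset.mem_range]
          exact ⟨fun h => h.2, fun h => ⟨hlt n h, h⟩⟩) i (hlt i hi)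
      simpa [hi] using h1
    · intro b hb
      obtain ⟨c, hc⟩ := (h0 b).1 hb
      exact ⟨c, hc.symm⟩
  obtain ⟨ι, E, hE, hgen⟩ := ess hG (Set.range d)
    (by rintro _ ⟨δ, rfl⟩ n b hb; exact hdeg δ n b hb)
    (by
      intro n b hb hd
      have h1 : b ∈ gr 0 := hker b (fun δ => hd _ ⟨δ, rfl⟩)
      have h2 := hind (n + 2) (fun m => if m = n + 1 then b else if m = 0 then -b else 0)
        (fun m => by
          split_ifs with h3 h4
          · rw [h3]; exact hb
          · rw [h4]; exact Submodule.neg_mem _ h1
          · exact Submodule.zero_mem _) (by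
          rw [Finset.sum_range_succ, Finset.sum_range_succ']
          rw [if_pos rfl, Finset.sum_eq_zero]
          · simp
          · intro m hm
            rw [if_neg (by have := Finset.mem_range.1 hm; omega), if_neg (by omega)]) (n + 1)
          (by omega)
      simpa using h2)
  refine ⟨ι, ⟨?_⟩⟩
  have e1 := hE.aevalEquiv
  exact e1.trans ((Subalgebra.equivOfEq _ _ hgen).trans Subalgebra.topEquiv)

end Pool.Agent.RS.H14
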